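import Pool.Agent.helper64.NQ.Spec

/-! Row nq:FIN: Dade's invariant conjecture for nilpotent quotients. -/

set_option autoImplicit false

namespace Pool.Agent.NQ

open Pool.Agent.helper58.DC Pool.Agent.DI Pool.Agent.DR

/-- commutative groups are in the class -/
theorem FIN_comm (p : ℕ) (A : Type) [Group A] (h : ∀ a b : A, a * b = b * a) : PNil p A := by
  refine ⟨⊥, inferInstance, IsPGroup.of_bot, ?_⟩
  let _ : CommGroup (A ⧸ (⊥ : Subgroup A)) :=
    { (inferInstance : Group (A ⧸ (⊥ : Subgroup A))) with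
      mul_comm := by
        intro x y
        induction x using QuotientGroup.induction_on
        induction y using QuotientGroup.induction_on
        rw [← QuotientGroup.mk_mul, ← QuotientGroup.mk_mul, h] }
  exact CommGroup.isNilpotent

/-- the induction on the order of the quotient -/
theorem FIN_ind (hUPW : UPW_stmt) (hPNC : PNC_stmt)
    (hNZ1 : NZ1_stmt) (hNZ2 : NZ2_stmt) (hD13 : D13_stmt) (hRE : RE_stmt) (hST : ST_stmt)
    (hD6 : D6_stmt) (hPCA : PCAX_stmt) (hZCA : ZCAX_stmt) (hGVM : GVM_stmt) (hZFN : ZFN_stmt)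
    (p : ℕ) [Fact p.Prime] (M : Ideal (integralClosure ℤ ℂ)) (hM : M.IsMaximal)
    (hpM : (p : integralClosure ℤ ℂ) ∈ M) (𝒳 : (E : Type) → [Group E] → Prop) (hCl : ClX 𝒳)
    (hPr : PrX 𝒳) (hCe : CeX p 𝒳)
    (hb : ∀ (G E A : Type) [Group G] [Group E] [Group A] [Finite G] [Finite E] [Finite A]
      (X : Extension G E A), 𝒳 E → IsOp p (⊤ : Subgroup G) ⊥ → ∀ χ ∈ Irr G, PosDefect p M χ →
      Stable X M χ → ∀ n : ℕ, Squarefree n → ¬ p ∣ n → Bic n A →
      (∀ T : Subgroup A, T ≠ ⊤ → InvX p M 𝒳 T) → ∀ D : ℤ, 1 ≤ D → altSum X p M χ D ⊤ = 0) :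
    ∀ (n : ℕ) (A : Type) [Group A] [Finite A], Nat.card A = n → PNil p A → InvX p M 𝒳 A := by
  have hC := hPNC p
  intro n
  induction n using Nat.strong_induction_on with
  | _ n ih =>
    intro A _ _ hn hA G E A' _ _ _ _ _ X hE hiso hop χ hχ hdef d U
    obtain ⟨e⟩ := hiso
    have : Finite A' := Finite.of_equiv A e.symm.toEquiv
    have hcard : Nat.card A' = n := by rw [← hn]; exact Nat.card_congr e.toEquiv
    have hA' : PNil p A' := (hC.img A A' e.symm.toMonoidHom e.symm.surjective ⟨inferInstance, hA⟩).2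
    have hsub : ∀ V : Subgroup A', V ≠ ⊤ → InvX p M 𝒳 V := by
      intro V hV
      have h1 : Nat.card V < n := by
        rw [← hcard]
        refine lt_of_le_of_ne (Subgroup.card_le_card_group V) ?_
        intro h
        exact hV (Subgroup.eq_top_of_card_eq V h)
      exact ih (Nat.card V) h1 V rfl (hC.sub A' V ⟨inferInstance, hA'⟩).2
    by_cases hR : RedX p A'
    · obtain ⟨h1, h2⟩ := hNZ1 p A' hA' hR
      obtain ⟨k, hk1, hk2, hk3⟩ := hNZ2 p A' h1 hR h2
      refine hUPW p M hM hpM G E A' X χ hχ hdef ?_ ?_ d U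
      · intro V hV d'
        exact hsub V hV G (V.comap X.proj) V (resE X V) (hCl.sub _ _ hE) ⟨MulEquiv.refl _⟩ hop χ hχ
          hdef d' ⊤
      · intro hS d' hd'
        exact hb G E A' X hE hop χ hχ hdef hS k hk1 hk2 hk3 hsub d' hd'
    · have hR' := hR
      unfold RedX at hR'
      push Not at hR'
      obtain ⟨N, hN, hN2⟩ := hR'
      have hNn : N.Normal := hN.nor
      refine FSTX hD13 hRE hST hD6 hPCA hZCA hGVM p M hM hpM 𝒳 hCl G E A' X hE N hN ?_ hsub ?_
        hop χ hχ hdef d U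
      · by_cases h1 : p ∣ Nat.card N
        · exact Or.inl ⟨h1, LF_KE hCl hPr X hE⟩
        · refine Or.inr ⟨h1, ?_, fun m hm hpm => ?_⟩
          · by_cases h2 : ncpl N = Nat.card N
            · exact Or.inr (hN2 h1 h2)
            · exact Or.inl h2
          · obtain ⟨-, -, -, -, -, -, -, -, -, hF⟩ := hZFN A' m hm
            obtain ⟨f1, f2, f3, f4, -⟩ := hF G E X
            have := f1
            exact hCe (FC X m) E (fcE X m) f2 f4 (by rw [f3]; exact hpm) hE
      · have h1 : Nat.card (A' ⧸ N) < n := by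
          rw [← hcard, Subgroup.card_eq_card_quotient_mul_card_subgroup N]
          have h2 : 1 < Nat.card N := (Subgroup.one_lt_card_iff_ne_bot N).2 hN.ne
          have h3 : 0 < Nat.card (A' ⧸ N) := Nat.card_pos
          exact lt_mul_of_one_lt_right h3 h2
        exact ih (Nat.card (A' ⧸ N)) h1 (A' ⧸ N) rfl
          (hC.img A' (A' ⧸ N) (QuotientGroup.mk' N) (QuotientGroup.mk'_surjective N)
            ⟨inferInstance, hA'⟩).2

theorem FIN (hKEY : KEY_stmt) (hZER : ZER_stmt) (hUPW : UPW_stmt) (hPNC : PNC_stmt)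
    (hNZ1 : NZ1_stmt) (hNZ2 : NZ2_stmt) (hD13 : D13_stmt) (hRE : RE_stmt) (hST : ST_stmt)
    (hD6 : D6_stmt) (hPCA : PCAX_stmt) (hZCA : ZCAX_stmt) (hGVM : GVM_stmt) (hZFN : ZFN_stmt) :
    FIN_stmt := by
  intro p _ M hM hpM 𝒳 hCl hPr hCe
  have hsub : NilX p M 𝒳 → ∀ (A : Type) [Group A] [Finite A], (∀ a b : A, a * b = b * a) →
      ∀ T : Subgroup A, InvX p M 𝒳 T := by
    intro hN A _ _ hc T
    exact hN T (FIN_comm p T fun a b => Subtype.ext (hc a b))
  refine ⟨⟨?_, ?_⟩, ⟨?_, ?_⟩⟩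
  · intro hN n hn hpn G E A _ _ _ _ _ X hE hB hop χ hχ hPD d
    have hfA : Finite A := Finite.of_surjective X.proj X.proj_surjective
    by_cases h : d ≤ 0 ∨ ¬ Stable X M χ
    · exact hZER G E A X p M hM hpM χ hχ hPD d h _
    · push Not at h
      have h1 := (hKEY G E A X p M hM hpM hop χ hχ h.2 𝒳 hCl hE n hn hpn hB
        (fun T _ => hsub hN A hB.1 T) d (by omega)).1
      have h2 := hN A (FIN_comm p A hB.1) G E A X hE ⟨MulEquiv.refl _⟩ hop χ hχ hPD d ⊤
      rw [h2] at h1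
      have hn0 : (n : ℤ) ≠ 0 := by
        exact_mod_cast hn.ne_zero
      rcases mul_eq_zero.1 h1.symm with h3 | h3
      · exact absurd h3 hn0
      · exact h3
  · intro hE' A _ _ hA
    refine FIN_ind hUPW hPNC hNZ1 hNZ2 hD13 hRE hST hD6 hPCA hZCA hGVM hZFN p M hM hpM 𝒳
      hCl hPr hCe ?_ (Nat.card A) A rfl hA
    intro G E B _ _ _ _ _ _ X hE hop χ hχ hPD hS n hn hpn hB hT D hD
    rw [(hKEY G E B X p M hM hpM hop χ hχ hS 𝒳 hCl hE n hn hpn hB hT D hD).1,
      hE' n hn hpn G E B X hE hB hop χ hχ hPD D, mul_zero]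
  · intro hN n hn hpn G E A _ _ _ _ _ X hE hB hop χ hχ hPD d
    have hfA : Finite A := Finite.of_surjective X.proj X.proj_surjective
    by_cases h : d ≤ 0 ∨ ¬ Stable X M χ
    · exact hZER G E A X p M hM hpM χ hχ hPD d h _
    · push Not at h
      have h1 := (hKEY G E A X p M hM hpM hop χ hχ h.2 𝒳 hCl hE n hn hpn hB
        (fun T _ => hsub hN A hB.1 T) d (by omega)).2
      have h2 := hN A (FIN_comm p A hB.1) G E A X hE ⟨MulEquiv.refl _⟩ hop χ hχ hPD d ⊤
      rw [h2, mul_zero] at h1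
      have hn0 : (n : ℤ) ≠ 0 := by
        exact_mod_cast hn.ne_zero
      rcases mul_eq_zero.1 h1 with h3 | h3
      · exact absurd h3 hn0
      · exact h3
  · intro hR' A _ _ hA
    refine FIN_ind hUPW hPNC hNZ1 hNZ2 hD13 hRE hST hD6 hPCA hZCA hGVM hZFN p M hM hpM 𝒳
      hCl hPr hCe ?_ (Nat.card A) A rfl hA
    intro G E B _ _ _ _ _ _ X hE hop χ hχ hPD hS n hn hpn hB hT D hD
    have h1 := (hKEY G E B X p M hM hpM hop χ hχ hS 𝒳 hCl hE n hn hpn hB hT D hD).2
    rw [hR' n hn hpn G E B X hE hB hop χ hχ hPD D, mul_zero] at h1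
    have hn0 : (Nat.totient n : ℤ) ≠ 0 := by
      have := Nat.totient_pos.2 (Nat.pos_of_ne_zero hn.ne_zero)
      exact_mod_cast this.ne'
    rcases mul_eq_zero.1 h1.symm with h3 | h3
    · exact absurd h3 hn0
    · exact h3

end Pool.Agent.NQ
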